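import Pool.Agent.Lib.MP_801f88_co.Main

set_option autoImplicit false

namespace Pool.Agent.Results.MP_801f88_co.LogAsymptotic

open Pool.Agent.Lib.MP_801f88_co

/-- The number `N(c)` of classes of (0,1)-matrices of order `c ^ 2` with `A ^ 2 = J` satisfies
`log N(c) = (1/3) c^3 log c + O(c^3 log log c)`; the lower error term is even `O(c^3)`. -/
theorem result : ∃ C : ℝ, ∀ c : ℕ, 3 ≤ c →
    (c : ℝ) ^ 3 * Real.log c / 3 - C * (c : ℝ) ^ 3 ≤ Real.log (numClasses c) ∧
    Real.log (numClasses c) ≤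
      (c : ℝ) ^ 3 * Real.log c / 3 + C * (c : ℝ) ^ 3 * Real.log (Real.log c) :=
  main

end Pool.Agent.Results.MP_801f88_co.LogAsymptotic
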